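import Pool.Agent.Q17.FT.Stm
import Pool.Agent.H977R3.CM.TowerCount

/-! # Project FT of helper17: JOB CRT, automorphisms with given values on roots of unity -/

set_option autoImplicit false

namespace Pool.Agent.Q92.FT

open Pool.Agent.Q17.FT

/-- an automorphism of `ℂ` with given values on the `L`-th roots of unity -/
lemma exists_aut_pow {L k : ℕ} (hL : 0 < L) (hk : Nat.Coprime k L) :
    ∃ t : ℂ ≃+* ℂ, ∀ ζ : ℂ, ζ ^ L = 1 → t ζ = ζ ^ k := by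
  have hL' : NeZero L := ⟨hL.ne'⟩
  have hcyc : IsCyclotomicExtension {L} ℚ (CyclotomicField L ℚ) :=
    CyclotomicField.isCyclotomicExtension L ℚ
  have h1 := Complex.isPrimitiveRoot_exp L hL.ne'
  set ω := Complex.exp (2 * Real.pi * Complex.I / L) with hω
  have h2 : IsPrimitiveRoot (ω ^ k) L := h1.pow_of_coprime k hk
  have hz := IsCyclotomicExtension.zeta_spec L ℚ (CyclotomicField L ℚ)
  have hirr : Irreducible (Polynomial.cyclotomic L ℚ) := Polynomial.cyclotomic.irreducible_rat hL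
  let e := hz.embeddingsEquivPrimitiveRoots ℂ hirr
  have he : ∀ φ : CyclotomicField L ℚ →ₐ[ℚ] ℂ,
      (e φ : ℂ) = φ (IsCyclotomicExtension.zeta L ℚ (CyclotomicField L ℚ)) := fun φ =>
    hz.embeddingsEquivPrimitiveRoots_apply_coe ℂ hirr φ
  have h3 : ω ∈ primitiveRoots L ℂ := (mem_primitiveRoots hL).mpr h1
  have h4 : ω ^ k ∈ primitiveRoots L ℂ := (mem_primitiveRoots hL).mpr h2
  obtain ⟨σ, hσ⟩ := Pool.Agent.H977R3.CM.exists_aut_emb
    ((e.symm ⟨ω, h3⟩ : CyclotomicField L ℚ →ₐ[ℚ] ℂ) : CyclotomicField L ℚ →+* ℂ)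
    ((e.symm ⟨ω ^ k, h4⟩ : CyclotomicField L ℚ →ₐ[ℚ] ℂ) : CyclotomicField L ℚ →+* ℂ)
  have h5 : σ ω = ω ^ k := by
    have h6 := RingHom.congr_fun hσ (IsCyclotomicExtension.zeta L ℚ (CyclotomicField L ℚ))
    have h7 := he (e.symm ⟨ω, h3⟩)
    have h8 := he (e.symm ⟨ω ^ k, h4⟩)
    rw [Equiv.apply_symm_apply] at h7 h8
    have h9 : σ (e.symm ⟨ω, h3⟩ (IsCyclotomicExtension.zeta L ℚ (CyclotomicField L ℚ))) =
        e.symm ⟨ω ^ k, h4⟩ (IsCyclotomicExtension.zeta L ℚ (CyclotomicField L ℚ)) := h6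
    rw [← h7, ← h8] at h9
    exact h9
  refine ⟨σ, fun ζ hζ => ?_⟩
  obtain ⟨j, -, rfl⟩ := h1.eq_pow_of_pow_eq_one hζ
  rw [map_pow, h5, ← pow_mul, ← pow_mul, mul_comm]

/-- an automorphism acts on the roots of unity by a power -/
lemma exists_exponent {L : ℕ} (hL : 0 < L) (s : ℂ ≃+* ℂ) :
    ∃ k : ℕ, Nat.Coprime k L ∧ ∀ ζ : ℂ, ζ ^ L = 1 → s ζ = ζ ^ k := by
  have hL' : NeZero L := ⟨hL.ne'⟩
  have h1 := Complex.isPrimitiveRoot_exp L hL.ne'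
  have h2 : IsPrimitiveRoot (s (Complex.exp (2 * Real.pi * Complex.I / L))) L :=
    h1.map_of_injective s.injective
  obtain ⟨i, hi, hc, he⟩ := h1.isPrimitiveRoot_iff.mp h2
  refine ⟨i, hc, fun ζ hζ => ?_⟩
  obtain ⟨j, -, rfl⟩ := h1.eq_pow_of_pow_eq_one hζ
  rw [map_pow, ← he, ← pow_mul, ← pow_mul, mul_comm i j]

lemma pow_eq_of_modEq {n a b : ℕ} (h : a ≡ b [MOD n]) {ζ : ℂ} (hζ : ζ ^ n = 1) : ζ ^ a = ζ ^ b := by
  rw [pow_eq_pow_mod a hζ, pow_eq_pow_mod b hζ]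
  exact congrArg (fun c => ζ ^ c) h

theorem t_CRT : S_CRT := by
  intro n m hn hm s hs
  set L := Nat.lcm n m with hL
  have hL0 : 0 < L := Nat.lcm_pos hn hm
  obtain ⟨k, hk, hsk⟩ := exists_exponent hL0 s
  have hnL : n ∣ L := Nat.dvd_lcm_left n m
  have hmL : m ∣ L := Nat.dvd_lcm_right n m
  have hg0 : 0 < Nat.gcd n m := Nat.gcd_pos_of_pos_left m hn
  have hgL : Nat.gcd n m ∣ L := (Nat.gcd_dvd_left n m).trans hnL
  have hpow : ∀ {r : ℕ} {ζ : ℂ}, r ∣ L → ζ ^ r = 1 → ζ ^ L = 1 := by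
    rintro r ζ ⟨c, hc⟩ h
    rw [hc, pow_mul, h, one_pow]
  have hk1 : k ≡ 1 [MOD Nat.gcd n m] := by
    have h1 := Complex.isPrimitiveRoot_exp (Nat.gcd n m) hg0.ne'
    have h2 := hs _ h1.pow_eq_one
    rw [hsk _ (hpow hgL h1.pow_eq_one)] at h2
    have h4 : Complex.exp (2 * Real.pi * Complex.I / (Nat.gcd n m : ℕ)) ^ (k % Nat.gcd n m) =
        Complex.exp (2 * Real.pi * Complex.I / (Nat.gcd n m : ℕ)) ^ (1 % Nat.gcd n m) := by
      rw [← pow_eq_pow_mod k h1.pow_eq_one, ← pow_eq_pow_mod 1 h1.pow_eq_one, pow_one]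
      exact h2
    exact h1.pow_inj (Nat.mod_lt _ hg0) (Nat.mod_lt _ hg0) h4
  obtain ⟨k', hk'n, hk'm⟩ := Nat.chineseRemainder' hk1
  have hcn : Nat.Coprime k' n := by
    have h1 : Nat.Coprime k n := Nat.Coprime.coprime_dvd_right hnL hk
    unfold Nat.Coprime at h1 ⊢
    rw [← h1]
    exact hk'n.gcd_eq
  have hcm : Nat.Coprime k' m := by
    unfold Nat.Coprime
    rw [hk'm.gcd_eq, Nat.gcd_one_left]
  have hcL : Nat.Coprime k' L := by
    have h1 : Nat.Coprime k' (n * m) := Nat.Coprime.mul_right hcn hcm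
    exact Nat.Coprime.coprime_dvd_right (Nat.lcm_dvd_mul n m) h1
  obtain ⟨t, ht⟩ := exists_aut_pow hL0 hcL
  refine ⟨t, fun ζ hζ => ?_, fun ζ hζ => ?_⟩
  · rw [ht ζ (hpow hnL hζ), hsk ζ (hpow hnL hζ)]
    exact pow_eq_of_modEq hk'n hζ
  · rw [ht ζ (hpow hmL hζ), pow_eq_of_modEq hk'm hζ, pow_one]

end Pool.Agent.Q92.FT
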